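import Pool.Agent.K1H2.UB.Stm

set_option autoImplicit false

/-! Lattice function versus Green function: `t_CMP`. -/

namespace Pool.Agent.K1H94.UB

open Finset Pool.Agent.K1H53.BI Pool.Agent.K1H2.UB

lemma len_eq (w : Fin 3 → ℝ) : len w = ‖(WithLp.toLp 2 w : EuclideanSpace ℝ (Fin 3))‖ := by
  rw [EuclideanSpace.norm_eq]
  unfold len q
  simp

lemma len_tri (a b c : Fin 3 → ℝ) : len (a - c) ≤ len (a - b) + len (b - c) := by
  rw [len_eq, len_eq, len_eq]
  have h : (WithLp.toLp 2 (a - c) : EuclideanSpace ℝ (Fin 3)) =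
      WithLp.toLp 2 (a - b) + WithLp.toLp 2 (b - c) := by
    ext i
    simp
  rw [h]
  exact norm_add_le _ _

lemma q_nonneg (w : Fin 3 → ℝ) : 0 ≤ q w := Finset.sum_nonneg fun i _ => sq_nonneg _

lemma len_sq (w : Fin 3 → ℝ) : len w ^ 2 = q w := Real.sq_sqrt (q_nonneg w)

lemma q_rv (y : V) : q (rv y) = (nsq y : ℝ) := by
  unfold q rv nsq
  push_cast
  refine Finset.sum_congr rfl fun i _ => ?_
  rw [← Nat.cast_pow, ← Int.cast_natCast (R := ℝ) ((y i).natAbs ^ 2)]
  push_cast
  rw [sq_abs]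

lemma len_rv (y : V) : len (rv y) = nrm y := by
  unfold len nrm
  rw [q_rv]

lemma rv_sub (y z : V) : rv y - rv z = rv (y - z) := by
  funext i
  simp [rv]

lemma nrm_ge_one {x : V} (hx : x ≠ 0) : 1 ≤ nrm x := by
  unfold nrm
  rw [Real.one_le_sqrt]
  have h : nsq x ≠ 0 := by
    intro h
    apply hx
    unfold nsq at h
    rw [Finset.sum_eq_zero_iff] at h
    funext i
    have h1 := h i (Finset.mem_univ i)
    simpa using h1
  exact_mod_cast Nat.one_le_iff_ne_zero.2 h

lemma sqrt_diff {s : ℝ} (hs : 0 < s) :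
    0 ≤ 1 / s - 1 / Real.sqrt (s ^ 2 + 3) ∧ 1 / s - 1 / Real.sqrt (s ^ 2 + 3) ≤ 3 / (2 * s ^ 3) := by
  set r := Real.sqrt (s ^ 2 + 3) with hr
  have hr2 : r ^ 2 = s ^ 2 + 3 := Real.sq_sqrt (by positivity)
  have hsr : s ≤ r := by
    rw [hr]
    apply Real.le_sqrt_of_sq_le
    linarith
  have hr0 : 0 < r := hs.trans_le hsr
  have e : 1 / s - 1 / r = 3 / ((r + s) * (s * r)) := by
    rw [div_sub_div _ _ hs.ne' hr0.ne', div_eq_div_iff (by positivity) (by positivity)]
    linear_combination (s * r) * hr2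
  rw [e]
  refine ⟨by positivity, ?_⟩
  apply div_le_div_of_nonneg_left (by norm_num) (by positivity)
  have h1 : 2 * s ≤ r + s := by linarith
  have h2 : s * s ≤ s * r := mul_le_mul_of_nonneg_left hsr hs.le
  calc 2 * s ^ 3 = (2 * s) * (s * s) := by ring
    _ ≤ (r + s) * (s * r) := mul_le_mul h1 h2 (by positivity) (by positivity)

theorem t_CMP : S_CMP := by
  intro hG C k hC hk
  refine ⟨C + 48160, by linarith, fun N z hR y hyz hy => ?_⟩
  have hR10 : Reg 10 N z := ⟨hR.far, by linarith [hR.big]⟩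
  obtain ⟨hk1, hk4, hd1, hd8, -, hw, -⟩ := hG N z hR10
  have hdl : C + 48160 ≤ dl N z := hR.big
  have hyz' : y - z ≠ 0 := sub_ne_zero.2 hyz
  set s : ℝ := nrm (y - z) with hs
  have hs1 : 1 ≤ s := nrm_ge_one hyz'
  have hs0 : 0 < s := by linarith
  obtain ⟨hw1, hw2⟩ := hw (rv y) (by rw [len_rv]; exact hy)
  set s' : ℝ := len (rv y - zs N z) with hs'
  rw [rv_sub, len_rv, ← hs] at hw2
  have hs'0 : 0 < s' := by linarith
  have hUU : UU k N z y = k (y - z) - kap N z / Real.sqrt (s' ^ 2 + 3) := by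
    unfold UU
    rw [hs', len_sq]
  have hvv : vv N z (rv y) = 1 / s - kap N z / s' := by
    unfold vv
    rw [rv_sub, len_rv]
  have hlow := hk.low (y - z) hyz'
  have hupp := hk.upp (y - z) hyz'
  rw [← hs] at hlow hupp
  obtain ⟨hq1, hq2⟩ := sqrt_diff hs'0
  have hs3 : s ^ 3 ≤ 8000 * s' ^ 3 := by
    have h1 : s ^ 3 ≤ (20 * s') ^ 3 := pow_le_pow_left₀ hs0.le hw2 3
    calc s ^ 3 ≤ (20 * s') ^ 3 := h1
      _ = 8000 * s' ^ 3 := by ring
  have hK : kap N z * (1 / s' - 1 / Real.sqrt (s' ^ 2 + 3)) ≤ 48000 / s ^ 3 := by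
    have h1 : kap N z * (1 / s' - 1 / Real.sqrt (s' ^ 2 + 3)) ≤ 4 * (3 / (2 * s' ^ 3)) :=
      mul_le_mul hk4 hq2 hq1 (by norm_num)
    have h2 : 4 * (3 / (2 * s' ^ 3)) = 6 / s' ^ 3 := by
      field_simp
      norm_num
    have h3 : 6 / s' ^ 3 ≤ 48000 / s ^ 3 := by
      rw [div_le_div_iff₀ (by positivity) (by positivity)]
      nlinarith
    linarith
  have hK0 : 0 ≤ kap N z * (1 / s' - 1 / Real.sqrt (s' ^ 2 + 3)) :=
    mul_nonneg (by linarith) hq1
  have e1 : UU k N z y - vv N z (rv y) = (k (y - z) - 1 / s) +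
      kap N z * (1 / s' - 1 / Real.sqrt (s' ^ 2 + 3)) := by
    rw [hUU, hvv]
    ring
  have hcs : 0 ≤ C / s ^ 3 := by positivity
  have hs3p : 0 < s ^ 3 := by positivity
  have hdiff : |UU k N z y - vv N z (rv y)| ≤ (C + 48000) / s ^ 3 := by
    rw [e1, abs_of_nonneg (by linarith), add_div]
    linarith
  have hs2 : (1 : ℝ) ≤ s ^ 2 := one_le_pow₀ hs1
  refine ⟨?_, ?_, ?_⟩
  · refine hdiff.trans ?_
    gcongr
    norm_num
  · have h1 : UU k N z y ≤ vv N z (rv y) + (C + 48000) / s ^ 3 := by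
      have := (abs_le.1 hdiff).2
      linarith
    have h2 : vv N z (rv y) ≤ 160 * dl N z / s ^ 2 := by
      rw [hvv]
      have h3 : 1 / s' ≤ kap N z / s' := by gcongr
      have h4 : s' ≤ s + 8 * dl N z := by
        have h5 := len_tri (rv y) (rv z) (zs N z)
        rw [rv_sub y z, len_rv] at h5
        linarith
      have h6 : 1 / s - 1 / s' ≤ 8 * dl N z / (s * s') := by
        rw [div_sub_div _ _ hs0.ne' hs'0.ne']
        gcongr
        linarith
      have h7 : 8 * dl N z / (s * s') ≤ 160 * dl N z / s ^ 2 := by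
        rw [div_le_div_iff₀ (by positivity) (by positivity)]
        have h8 : 8 * dl N z * s * s ≤ 8 * dl N z * s * (20 * s') := by
          apply mul_le_mul_of_nonneg_left hw2
          have : 0 ≤ dl N z := by linarith
          positivity
        nlinarith
      linarith
    have h3 : (C + 48000) / s ^ 3 ≤ (C + 48000) * dl N z / s ^ 2 := by
      rw [div_le_div_iff₀ (by positivity) (by positivity)]
      have h4 : s ^ 2 ≤ dl N z * s ^ 3 := by
        have h5 : (1 : ℝ) ≤ dl N z * s := by nlinarith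
        calc s ^ 2 = 1 * s ^ 2 := (one_mul _).symm
          _ ≤ (dl N z * s) * s ^ 2 := mul_le_mul_of_nonneg_right h5 (by positivity)
          _ = _ := by ring
      calc (C + 48000) * s ^ 2 ≤ (C + 48000) * (dl N z * s ^ 3) :=
            mul_le_mul_of_nonneg_left h4 (by linarith)
        _ = (C + 48000) * dl N z * s ^ 3 := by ring
    have e2 : (C + 48160) * dl N z / s ^ 2 = 160 * dl N z / s ^ 2 +
        (C + 48000) * dl N z / s ^ 2 := by
      rw [← add_div]
      ring
    rw [e2]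
    linarith
  · have h1 : 0 ≤ kap N z / Real.sqrt (s' ^ 2 + 3) := by
      have : 0 ≤ kap N z := by linarith
      positivity
    have h2 : C / s ^ 3 ≤ C / s := by
      apply div_le_div_of_nonneg_left (by linarith) hs0
      nlinarith
    have h3 : (C + 48160) / s = 1 / s + C / s + 48159 / s := by
      rw [← add_div, ← add_div]
      ring
    have h4 : 0 ≤ 48159 / s := by positivity
    rw [hUU, h3]
    linarith

end Pool.Agent.K1H94.UB
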